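import Pool.Agent.P.MP_41a2b4_ag.T.E

/-! The finite groups with the weak local lifting property. -/

set_option autoImplicit false

namespace Pool.Agent.Results.MP_41a2b4_ag.WeakLiftClass

theorem result :
    ∀ (p : ℕ) [Fact p.Prime] (k : Type) [Field k] [IsAlgClosed k] [CharP k p]
      (G : Type) [Group G] [Finite G],
      (∃ (R : Type) (_ : CommRing R) (_ : IsDomain R) (_ : IsDiscreteValuationRing R)
        (_ : Algebra (WittVector p k) R) (_ : Module.Finite (WittVector p k) R)
        (π : R →+* k)
        (i : G →* (PowerSeries k ≃ₐ[k] PowerSeries k))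
        (j : G →* (PowerSeries R ≃ₐ[R] PowerSeries R)),
        Function.Injective (algebraMap (WittVector p k) R) ∧
        (∀ w, π (algebraMap (WittVector p k) R w) = WittVector.constantCoeff w) ∧
        Function.Surjective π ∧ Function.Injective i ∧
          ∀ (g : G) (f : PowerSeries R),
            PowerSeries.map π (j g f) = i g (PowerSeries.map π f)) ↔
      ∃ θ : G →* kˣ, IsPGroup p θ.ker ∧
        ∀ H : Subgroup G, ¬ IsCyclic H → ¬ H ≤ θ.ker →
          ∃ φ : H → k, (∀ a b : H, φ (a * b) = φ a + θ a * φ b) ∧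
            ¬ ∃ x : k, ∀ a : H, φ a = θ a * x - x :=
  Pool.Agent.P.MP_41a2b4_ag.T.main'

end Pool.Agent.Results.MP_41a2b4_ag.WeakLiftClass
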